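import Mathlib
import Pool.Agent.H518R4.UG.CEXP
import Pool.Agent.H518R4.UG.BURG

/-!
# A bounded-degree expander family without movable members

The strong product with `K_2` of (a simple, regular form of) the expanders of Margulis and of
Gabber and Galil is an expander sequence of constant degree `15`, and none of its members
is movable.
-/

set_option autoImplicit false

namespace Pool.Agent.Results.MP_e534f3_co.NotMovable

open Finset

/-- `ρ` is a realisation in the plane (identified with `ℂ`) of the graph `G` with the edge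
labelling `lam`. -/
def IsRealisation {V : Type} (G : SimpleGraph V) (lam : Sym2 V → ℝ) (ρ : V → ℂ) : Prop :=
  ∀ u v, G.Adj u v → ‖ρ u - ρ v‖ = lam s(u, v)

/-- Two maps to the plane are equivalent if they differ by a direct isometry of the plane
`z ↦ a z + b`, `|a| = 1`. -/
def directEquiv (V : Type) : Setoid (V → ℂ) where
  r ρ₁ ρ₂ := ∃ a b : ℂ, ‖a‖ = 1 ∧ ∀ v, ρ₁ v = a * ρ₂ v + b
  iseqv := by
    refine ⟨fun ρ => ⟨1, 0, by simp, fun v => by simp⟩, ?_, ?_⟩
    · rintro ρ₁ ρ₂ ⟨a, b, ha, h⟩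
      have ha0 : a ≠ 0 := by
        intro h0; rw [h0, norm_zero] at ha; exact zero_ne_one ha
      refine ⟨a⁻¹, -(a⁻¹ * b), by rw [norm_inv, ha, inv_one], fun v => ?_⟩
      rw [h v]
      field_simp
      ring
    · rintro ρ₁ ρ₂ ρ₃ ⟨a, b, ha, h⟩ ⟨a', b', ha', h'⟩
      refine ⟨a * a', a * b' + b, by rw [norm_mul, ha, ha', one_mul], fun v => ?_⟩
      rw [h v, h' v]
      ring

/-- The graph `G` is movable: for some labelling of the edges by positive numbers there are
infinitely many equivalence classes of injective realisations. -/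
def Movable {V : Type} (G : SimpleGraph V) : Prop :=
  ∃ lam : Sym2 V → ℝ, (∀ e ∈ G.edgeSet, 0 < lam e) ∧
    ((Quotient.mk (directEquiv V)) '' {ρ | Function.Injective ρ ∧ IsRealisation G lam ρ}).Infinite

/-- The set of the edges with exactly one endpoint in `S`. -/
def edgeBoundary {V : Type} (G : SimpleGraph V) (S : Finset V) : Set (Sym2 V) :=
  {e | ∃ u v, G.Adj u v ∧ u ∈ S ∧ v ∉ S ∧ e = s(u, v)}

/-- The graph `G` is connected and regular of degree `d`, and `|∂S| ≥ ε |S|` for each set `S` of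
at most half of the vertices. -/
def IsExpander {V : Type} [Fintype V] (d : ℕ) (ε : ℝ) (G : SimpleGraph V) : Prop :=
  G.Connected ∧ (∀ v, (G.neighborSet v).ncard = d) ∧
    ∀ S : Finset V, S.Nonempty → 2 * S.card ≤ Fintype.card V →
      ε * S.card ≤ (edgeBoundary G S).ncard

/-- A constant degree `d` expander sequence. -/
def IsExpanderSequence (d : ℕ) (V : ℕ → Type) [∀ n, Fintype (V n)] (G : ∀ n, SimpleGraph (V n)) :
    Prop :=
  Filter.Tendsto (fun n => Fintype.card (V n)) Filter.atTop Filter.atTop ∧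
    ∃ ε : ℝ, 0 < ε ∧ ∀ n, IsExpander d ε (G n)

/-! ### Strong products with `K_2` are not movable -/

/-- the strong product of `H` with `K_2` -/
def dbl {B : Type} (H : SimpleGraph B) : SimpleGraph (B × Bool) where
  Adj x y := H.Adj x.1 y.1 ∨ (x.1 = y.1 ∧ x.2 ≠ y.2)
  symm := ⟨fun _ _ h => h.imp (fun h => h.symm) (fun h => ⟨h.1.symm, h.2.symm⟩)⟩
  loopless := ⟨fun _ h => h.elim (fun h => H.loopless.irrefl _ h) (fun h => h.2 rfl)⟩

theorem dbl_adj {B : Type} {H : SimpleGraph B} {x y : B × Bool} :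
    (dbl H).Adj x y ↔ H.Adj x.1 y.1 ∨ (x.1 = y.1 ∧ x.2 ≠ y.2) := Iff.rfl

theorem circles {p q : ℂ} (hpq : p ≠ q) (r s : ℝ) :
    {z : ℂ | ‖z - p‖ = r ∧ ‖z - q‖ = s}.Finite := by
  by_cases hs : {z : ℂ | ‖z - p‖ = r ∧ ‖z - q‖ = s}.Subsingleton
  · exact hs.finite
  · rw [Set.not_subsingleton_iff] at hs
    obtain ⟨a, ha, b, hb, hab⟩ := hs
    refine Set.Finite.subset (Set.toFinite {a, b}) ?_
    intro z hz
    simp only [Set.mem_ofPred_eq] at ha hb hz
    have := EuclideanGeometry.eq_of_dist_eq_of_dist_eq_of_finrank_eq_two (V := ℂ) (P := ℂ)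
      Complex.finrank_real_complex hpq hab (p := z) (r₁ := r) (r₂ := s)
      (by rw [dist_eq_norm]; exact ha.1) (by rw [dist_eq_norm]; exact hb.1)
      (by rw [dist_eq_norm]; exact hz.1) (by rw [dist_eq_norm]; exact ha.2)
      (by rw [dist_eq_norm]; exact hb.2) (by rw [dist_eq_norm]; exact hz.2)
    simpa using this

theorem not_movable {B : Type} [Finite B] (H : SimpleGraph B) (hH : (dbl H).Connected) :
    ¬ Movable (dbl H) := by
  rintro ⟨lam, hpos, hinf⟩
  obtain ⟨⟨β₀, _⟩⟩ := hH.nonempty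
  have hadj0 : (dbl H).Adj (β₀, false) (β₀, true) := Or.inr ⟨rfl, by simp⟩
  set L : ℝ := lam s((β₀, false), (β₀, true)) with hL
  have hLpos : 0 < L := hpos _ hadj0
  set D : Set (B × Bool → ℂ) := {ρ | Function.Injective ρ ∧ IsRealisation (dbl H) lam ρ ∧
    ρ (β₀, false) = 0 ∧ ρ (β₀, true) = (L : ℂ)} with hD
  have hsub : (Quotient.mk (directEquiv (B × Bool))) ''
      {ρ | Function.Injective ρ ∧ IsRealisation (dbl H) lam ρ} ⊆
      (Quotient.mk (directEquiv (B × Bool))) '' D := by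
    rintro _ ⟨ρ, ⟨hi, hr⟩, rfl⟩
    set w : ℂ := ρ (β₀, true) - ρ (β₀, false) with hw
    have hwn : ‖w‖ = L := by
      rw [hw, norm_sub_rev]; exact hr _ _ hadj0
    have hw0 : w ≠ 0 := by
      intro h; rw [h, norm_zero] at hwn; linarith
    set a : ℂ := (L : ℂ) / w with ha
    have han : ‖a‖ = 1 := by
      rw [ha, norm_div, Complex.norm_real, Real.norm_of_nonneg hLpos.le, hwn]
      exact div_self hLpos.ne'
    have ha0 : a ≠ 0 := by
      intro h0; rw [h0, norm_zero] at han; exact zero_ne_one han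
    refine ⟨fun v => a * ρ v + -(a * ρ (β₀, false)), ⟨?_, ?_, ?_, ?_⟩, ?_⟩
    · intro u v huv
      simp only at huv
      exact hi (mul_left_cancel₀ ha0 (add_right_cancel huv))
    · intro u v huv
      rw [← hr u v huv]
      have : a * ρ u + -(a * ρ (β₀, false)) - (a * ρ v + -(a * ρ (β₀, false))) =
        a * (ρ u - ρ v) := by ring
      rw [this, norm_mul, han, one_mul]
    · ring
    · have : a * ρ (β₀, true) + -(a * ρ (β₀, false)) = a * w := by rw [hw]; ring
      show a * ρ (β₀, true) + -(a * ρ (β₀, false)) = (L : ℂ)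
      rw [this, ha, div_mul_cancel₀ _ hw0]
    · apply Quotient.sound
      exact ⟨a, -(a * ρ (β₀, false)), han, fun v => rfl⟩
  apply hinf
  refine Set.Finite.subset (Set.Finite.image _ ?_) hsub
  -- the normalised realisations are finitely many
  have base : ∀ c : Bool, ((fun ρ : B × Bool → ℂ => ρ (β₀, c)) '' D).Finite := by
    intro c
    refine Set.Finite.subset (Set.toFinite {0, (L : ℂ)}) ?_
    rintro _ ⟨ρ, ⟨_, _, h1, h2⟩, rfl⟩
    cases c
    · simp [h1]
    · simp [h2]
  have step : ∀ u v : B × Bool, (dbl H).Adj u v →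
      (∀ c : Bool, ((fun ρ : B × Bool → ℂ => ρ (v.1, c)) '' D).Finite) →
      ∀ c : Bool, ((fun ρ : B × Bool → ℂ => ρ (u.1, c)) '' D).Finite := by
    intro u v huv ih' c
    rcases huv with huv | ⟨huv, _⟩
    · refine Set.Finite.subset (Set.Finite.biUnion ((ih' true).prod (ih' false))
        (t := fun pq : ℂ × ℂ => {z : ℂ | pq.1 ≠ pq.2 ∧
          (‖z - pq.1‖ = lam s((u.1, c), (v.1, true)) ∧
            ‖z - pq.2‖ = lam s((u.1, c), (v.1, false)))}) ?_) ?_
      · rintro ⟨a, b⟩ _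
        by_cases hab : a = b
        · convert Set.finite_empty
          ext z
          simp [hab]
        · refine (circles hab (lam s((u.1, c), (v.1, true)))
            (lam s((u.1, c), (v.1, false)))).subset ?_
          rintro z ⟨_, hz⟩
          exact hz
      · rintro _ ⟨ρ, hρ, rfl⟩
        rw [Set.mem_iUnion₂]
        refine ⟨(ρ (v.1, true), ρ (v.1, false)), ⟨⟨ρ, hρ, rfl⟩, ⟨ρ, hρ, rfl⟩⟩, ?_, ?_, ?_⟩
        · intro h
          have := hρ.1 h
          simp at this
        · exact hρ.2.1 _ _ (Or.inl huv)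
        · exact hρ.2.1 _ _ (Or.inl huv)
    · rw [huv]
      exact ih' c
  have key : ∀ x y : B × Bool, (dbl H).Reachable x y →
      (∀ c : Bool, ((fun ρ : B × Bool → ℂ => ρ (y.1, c)) '' D).Finite) →
      ∀ c : Bool, ((fun ρ : B × Bool → ℂ => ρ (x.1, c)) '' D).Finite := by
    rintro x y ⟨p⟩
    induction p with
    | nil => exact fun h => h
    | cons huv p ih => exact fun h => step _ _ huv (ih h)
  have hfin : (Set.pi Set.univ (fun x : B × Bool =>
      ((fun ρ : B × Bool → ℂ => ρ (x.1, x.2)) '' D))).Finite :=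
    Set.Finite.pi fun x => key x (β₀, true) (hH.preconnected _ _) base x.2
  refine hfin.subset ?_
  intro ρ hρ x _
  exact ⟨ρ, hρ, rfl⟩

/-! ### expansion and connectedness -/

theorem connected_of_expand {V : Type} [Fintype V] [Nonempty V] (G : SimpleGraph V) (ε : ℝ)
    (hε : 0 < ε) (h : ∀ S : Finset V, S.Nonempty → 2 * S.card ≤ Fintype.card V →
      ε * S.card ≤ (edgeBoundary G S).ncard) : G.Connected := by
  classical
  refine ⟨?_⟩
  intro u v
  by_contra huv
  have hno : ∀ S : Finset V, S.Nonempty → edgeBoundary G S = ∅ → Fintype.card V < 2 * S.card := by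
    intro S hS hb
    by_contra hle
    have h1 := h S hS (by omega)
    rw [hb, Set.ncard_empty] at h1
    have h2 : (0 : ℝ) < S.card := by exact_mod_cast hS.card_pos
    have h3 := mul_pos hε h2
    push_cast at h1
    linarith
  set C : Finset V := univ.filter (fun w => G.Reachable u w) with hC
  have h1 := hno C ⟨u, by rw [hC, mem_filter]; exact ⟨mem_univ _, SimpleGraph.Reachable.refl u⟩⟩ (by
    rw [Set.eq_empty_iff_forall_notMem]
    rintro _ ⟨a, b, hab, ha, hb, rfl⟩
    rw [hC, mem_filter] at ha hb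
    exact hb ⟨mem_univ _, ha.2.trans hab.reachable⟩)
  have h2 := hno Cᶜ ⟨v, by
    rw [mem_compl, hC, mem_filter]; exact fun h => huv h.2⟩ (by
    rw [Set.eq_empty_iff_forall_notMem]
    rintro _ ⟨a, b, hab, ha, hb, rfl⟩
    rw [mem_compl, hC, mem_filter] at ha hb
    push Not at hb
    exact ha ⟨mem_univ _, hb.2.trans hab.symm.reachable⟩)
  rw [card_compl] at h2
  have h3 := card_le_univ C
  omega

/-! ### the expanders -/

/-- the torus -/
abbrev W (m : ℕ) : Type := ZMod m × ZMod m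

/-- the generators -/
def sg (m : ℕ) : Fin 4 → Equiv.Perm (W m) := ![
  ⟨fun v => (v.1 + 1, v.2), fun v => (v.1 - 1, v.2), fun v => by simp, fun v => by simp⟩,
  ⟨fun v => (v.1, v.2 + 1), fun v => (v.1, v.2 - 1), fun v => by simp, fun v => by simp⟩,
  ⟨fun v => (v.1, v.2 + v.1), fun v => (v.1, v.2 - v.1), fun v => by simp, fun v => by simp⟩,
  ⟨fun v => (v.1 + v.2, v.2), fun v => (v.1 - v.2, v.2), fun v => by simp, fun v => by simp⟩]

/-- the neighbour of the cloud `v` along the port `(i, s)` -/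
def part (m : ℕ) (v : W m) (p : Fin 4 × Bool) : W m :=
  if p.2 then sg m p.1 v else (sg m p.1).symm v

theorem part_part (m : ℕ) (v : W m) (i : Fin 4) (s : Bool) :
    part m (part m v (i, s)) (i, !s) = v := by
  cases s <;> simp [part]

/-- clouds of 8 vertices, joined along the generators -/
def Hg (m : ℕ) : SimpleGraph (W m × Fin 4 × Bool) where
  Adj x y := (x.1 = y.1 ∧ x.2.1 ≠ y.2.1) ∨
    (y.2 = (x.2.1, !x.2.2) ∧ y.1 = part m x.1 x.2)
  symm := ⟨by
    rintro ⟨v, i, s⟩ ⟨w, j, t⟩ (⟨h1, h2⟩ | ⟨h1, h2⟩)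
    · exact Or.inl ⟨h1.symm, h2.symm⟩
    · refine Or.inr ⟨?_, ?_⟩
      · simp only [Prod.mk.injEq] at h1 ⊢
        rw [h1.1, h1.2, Bool.not_not]
        exact ⟨rfl, rfl⟩
      · simp only [Prod.mk.injEq] at h1 h2 ⊢
        rw [h1.1, h1.2, h2, part_part]⟩
  loopless := ⟨by
    rintro ⟨v, i, s⟩ (⟨_, h2⟩ | ⟨h1, _⟩)
    · exact h2 rfl
    · simp only [Prod.mk.injEq] at h1
      cases s <;> simp at h1⟩

/-- the type of the vertices -/
abbrev Vx (m : ℕ) : Type := (W m × Fin 4 × Bool) × Bool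

/-- the graph -/
def Gr (m : ℕ) : SimpleGraph (Vx m) := dbl (Hg m)

theorem degree (m : ℕ) (x : Vx m) : ((Gr m).neighborSet x).ncard = 15 := by
  obtain ⟨⟨v, i, s⟩, b⟩ := x
  set g : (Fin 4 × Bool) × Bool → Vx m := fun p =>
    ((if p.1 = (i, !s) then part m v (i, s) else v, p.1), p.2) with hg
  have hginj : Function.Injective g := by
    rintro ⟨p, c⟩ ⟨q, d⟩ h
    have h1 := congrArg (fun z : Vx m => z.1.2) h
    have h2 := congrArg (fun z : Vx m => z.2) h
    exact Prod.ext h1 h2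
  have h : (Gr m).neighborSet ((v, i, s), b) = g '' {((i, s), b)}ᶜ := by
    ext ⟨⟨w, j, t⟩, c⟩
    constructor
    · intro hy
      refine ⟨((j, t), c), ?_, ?_⟩
      · rintro heq
        simp only [Set.mem_singleton_iff, Prod.mk.injEq] at heq
        obtain ⟨⟨rfl, rfl⟩, rfl⟩ := heq
        rcases hy with (⟨_, h2⟩ | ⟨h1, _⟩) | ⟨_, h2⟩
        · exact h2 rfl
        · simp only [Prod.mk.injEq] at h1
          cases t <;> simp at h1
        · exact h2 rfl
      · rcases hy with (⟨h1, h2⟩ | ⟨h1, h2⟩) | ⟨h1, h2⟩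
        · have : (j, t) ≠ (i, !s) := fun h => h2 (congrArg Prod.fst h).symm
          simp only [hg, if_neg this]
          have h1' : v = w := h1
          rw [h1']
        · have h1' : (j, t) = (i, !s) := h1
          have h2' : w = part m v (i, s) := h2
          simp only [hg, if_pos h1', h2']
        · have h1' : (v, i, s) = (w, j, t) := h1
          simp only [Prod.mk.injEq] at h1'
          obtain ⟨rfl, rfl, rfl⟩ := h1'
          have : (i, s) ≠ (i, !s) := by
            intro h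
            simp only [Prod.mk.injEq] at h
            cases s <;> simp at h
          simp only [hg, if_neg this]
    · rintro ⟨⟨⟨j', t'⟩, c'⟩, hne, heq⟩
      have h1 : (j', t') = (j, t) := congrArg (fun z : Vx m => z.1.2) heq
      have h2 : c' = c := congrArg (fun z : Vx m => z.2) heq
      have h3 : (if (j', t') = (i, !s) then part m v (i, s) else v) = w :=
        congrArg (fun z : Vx m => z.1.1) heq
      rw [h1] at h3
      rw [h1, h2] at hne
      by_cases hp : (j, t) = (i, !s)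
      · rw [if_pos hp] at h3
        exact Or.inl (Or.inr ⟨hp, h3.symm⟩)
      · rw [if_neg hp] at h3
        by_cases hj : i = j
        · subst hj
          have hts : t = s := by
            by_contra hts
            apply hp
            rw [Prod.mk.injEq]
            refine ⟨rfl, ?_⟩
            cases t <;> cases s <;> simp_all
          subst hts
          refine Or.inr ⟨by rw [h3], ?_⟩
          intro hb
          apply hne
          have hb' : b = c := hb
          rw [hb']
          rfl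
        · exact Or.inl (Or.inl ⟨h3, hj⟩)
  rw [h, Set.ncard_image_of_injective _ hginj, Set.ncard_compl, Set.ncard_singleton]
  simp

theorem ncard_le_of_inj {α β : Type} [Finite β] (s : Finset α) (t : Set β) (f : α → β)
    (hf : ∀ a ∈ s, f a ∈ t) (hinj : ∀ a ∈ s, ∀ b ∈ s, f a = f b → a = b) :
    s.card ≤ t.ncard := by
  have h1 : (f '' (s : Set α)).ncard = s.card := by
    rw [Set.InjOn.ncard_image, Set.ncard_coe_finset]
    intro a ha b hb h
    exact hinj a ha b hb h
  rw [← h1]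
  refine Set.ncard_le_ncard ?_ (Set.toFinite _)
  rintro _ ⟨a, ha, rfl⟩
  exact hf a ha

section expansion

variable {m : ℕ} [NeZero m] (S : Finset (Vx m))

open Classical in
/-- full clouds -/
noncomputable def Fu : Finset (W m) :=
  univ.filter fun v => ∀ (p : Fin 4 × Bool) (b : Bool), ((v, p), b) ∈ S

open Classical in
/-- partial clouds -/
noncomputable def Pa : Finset (W m) :=
  univ.filter fun v => (∃ (p : Fin 4 × Bool) (b : Bool), ((v, p), b) ∈ S) ∧
    ∃ (p : Fin 4 × Bool) (b : Bool), ((v, p), b) ∉ S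

theorem mem_Fu {v : W m} : v ∈ Fu S ↔ ∀ (p : Fin 4 × Bool) (b : Bool), ((v, p), b) ∈ S := by
  unfold Fu; rw [mem_filter]; simp

theorem mem_Pa {v : W m} : v ∈ Pa S ↔ (∃ (p : Fin 4 × Bool) (b : Bool), ((v, p), b) ∈ S) ∧
    ∃ (p : Fin 4 × Bool) (b : Bool), ((v, p), b) ∉ S := by
  simp only [Pa, mem_filter, mem_univ, true_and]

theorem empty_cloud {v : W m} (h1 : v ∉ Fu S) (h2 : v ∉ Pa S) (p : Fin 4 × Bool) (b : Bool) :
    ((v, p), b) ∉ S := by
  intro h
  rw [mem_Fu] at h1
  push Not at h1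
  exact h2 ((mem_Pa S).2 ⟨⟨p, b, h⟩, h1⟩)

theorem Pa_le : (Pa S).card ≤ (edgeBoundary (Gr m) S).ncard := by
  have key : ∀ v : W m, v ∈ Pa S → ∃ (p : Fin 4 × Bool) (b : Bool) (q : Fin 4 × Bool) (c : Bool),
      (Gr m).Adj ((v, p), b) ((v, q), c) ∧ ((v, p), b) ∈ S ∧ ((v, q), c) ∉ S := by
    intro v hv
    obtain ⟨⟨p, b, hp⟩, ⟨q, c, hq⟩⟩ := (mem_Pa S).1 hv
    by_cases hpq : p.1 = q.1
    · have hne : p.1 + 1 ≠ p.1 := by
        have : ∀ a : Fin 4, a + 1 ≠ a := by decide
        exact this _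
      by_cases hr : ((v, (p.1 + 1, true)), true) ∈ S
      · refine ⟨(p.1 + 1, true), true, q, c, Or.inl (Or.inl ⟨rfl, ?_⟩), hr, hq⟩
        show p.1 + 1 ≠ q.1
        rw [← hpq]; exact hne
      · exact ⟨p, b, (p.1 + 1, true), true, Or.inl (Or.inl ⟨rfl, hne.symm⟩), hp, hr⟩
    · exact ⟨p, b, q, c, Or.inl (Or.inl ⟨rfl, hpq⟩), hp, hq⟩
  choose! p b q c hk using key
  refine ncard_le_of_inj _ _ (fun v => s(((v, p v), b v), ((v, q v), c v))) ?_ ?_
  · intro v hv
    obtain ⟨h1, h2, h3⟩ := hk v hv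
    exact ⟨_, _, h1, h2, h3, rfl⟩
  · intro v _ w _ h
    simp only [Sym2.eq_iff, Prod.mk.injEq] at h
    rcases h with h | h
    · exact h.1.1.1
    · exact h.1.1.1

open Classical in
/-- the pairs (cloud, generator) such that exactly one end is full -/
noncomputable def Df : Finset (W m × Fin 4) :=
  univ.filter fun z => ¬ (z.1 ∈ Fu S ↔ sg m z.2 z.1 ∈ Fu S)

theorem Df_le : (Df S).card ≤ (edgeBoundary (Gr m) S).ncard + 8 * (Pa S).card := by
  classical
  set T : Finset (W m × Fin 4) := (Df S).filter fun z => z.1 ∉ Pa S ∧ sg m z.2 z.1 ∉ Pa S with hT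
  have hTle : T.card ≤ (edgeBoundary (Gr m) S).ncard := by
    refine ncard_le_of_inj _ _ (fun z => s(((z.1, (z.2, true)), true),
      ((sg m z.2 z.1, (z.2, false)), true))) ?_ ?_
    · rintro ⟨v, i⟩ hz
      rw [hT, mem_filter, Df, mem_filter] at hz
      obtain ⟨⟨_, h1⟩, h2, h3⟩ := hz
      simp only at h1 h2 h3
      have hadj : (Gr m).Adj ((v, (i, true)), true) ((sg m i v, (i, false)), true) :=
        Or.inl (Or.inr ⟨rfl, rfl⟩)
      by_cases hv : v ∈ Fu S
      · have hw : sg m i v ∉ Fu S := fun h => h1 ⟨fun _ => h, fun _ => hv⟩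
        exact ⟨_, _, hadj, (mem_Fu S).1 hv _ _, empty_cloud S hw h3 _ _, rfl⟩
      · have hw : sg m i v ∈ Fu S := by
          by_contra hw
          exact h1 ⟨fun h => absurd h hv, fun h => absurd h hw⟩
        exact ⟨_, _, hadj.symm, (mem_Fu S).1 hw _ _, empty_cloud S hv h2 _ _, Sym2.eq_swap⟩
    · rintro ⟨v, i⟩ _ ⟨w, j⟩ _ h
      simp only [Sym2.eq_iff, Prod.mk.injEq] at h
      rcases h with h | h
      · exact Prod.ext h.1.1.1 h.1.1.2.1
      · exact absurd h.1.1.2.2 (by simp)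
  have hsub : Df S ⊆ (T ∪ (Pa S) ×ˢ (univ : Finset (Fin 4))) ∪
      ((Pa S) ×ˢ (univ : Finset (Fin 4))).image (fun z => ((sg m z.2).symm z.1, z.2)) := by
    rintro ⟨v, i⟩ hz
    by_cases h1 : v ∈ Pa S
    · exact mem_union_left _ (mem_union_right _ (mem_product.2 ⟨h1, mem_univ _⟩))
    · by_cases h2 : sg m i v ∈ Pa S
      · refine mem_union_right _ (mem_image.2 ⟨(sg m i v, i), mem_product.2 ⟨h2, mem_univ _⟩, ?_⟩)
        simp
      · refine mem_union_left _ (mem_union_left _ ?_)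
        rw [hT, mem_filter]
        exact ⟨hz, h1, h2⟩
  have h4 : ((Pa S) ×ˢ (univ : Finset (Fin 4))).card = (Pa S).card * 4 := by
    rw [card_product]; simp
  have h5 := card_le_card hsub
  have h6 := card_union_le (T ∪ (Pa S) ×ˢ (univ : Finset (Fin 4)))
    (((Pa S) ×ˢ (univ : Finset (Fin 4))).image (fun z => ((sg m z.2).symm z.1, z.2)))
  have h7 := card_union_le T ((Pa S) ×ˢ (univ : Finset (Fin 4)))
  have h8 := card_image_le (s := (Pa S) ×ˢ (univ : Finset (Fin 4)))
    (f := fun z => ((sg m z.2).symm z.1, z.2))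
  omega

theorem cexp : Pool.Agent.H518R4.UG.S_CEXP :=
  Pool.Agent.H518R4.UG.p_CEXP Pool.Agent.H518R4.UG.p_BURG

theorem Fu_le (hF : 2 * (Fu S).card ≤ m ^ 2) : ((Fu S).card : ℝ) ≤ 1600 * (Df S).card := by
  classical
  have hm : (0 : ℝ) < m := by exact_mod_cast NeZero.pos m
  have hm2 : (0 : ℝ) < (m : ℝ) ^ 2 := by positivity
  set c : ℝ := (Fu S).card / (m : ℝ) ^ 2 with hc
  have hc0 : 0 ≤ c := by positivity
  have hc2 : c ≤ 1 / 2 := by
    rw [hc, div_le_div_iff₀ hm2 (by norm_num)]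
    have : (2 : ℝ) * (Fu S).card ≤ (m : ℝ) ^ 2 := by exact_mod_cast hF
    linarith
  set g : W m → ℝ := fun v => (if v ∈ Fu S then 1 else 0) - c with hg
  have hcardW : (Fintype.card (W m) : ℝ) = (m : ℝ) ^ 2 := by
    rw [Fintype.card_prod, ZMod.card]; push_cast; ring
  have hsum : ∑ v, g v = 0 := by
    rw [hg, Finset.sum_sub_distrib, Finset.sum_ite_mem, univ_inter, Finset.sum_const,
      Finset.sum_const, nsmul_eq_mul, nsmul_eq_mul, card_univ, hcardW, hc]
    field_simp
    ring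
  have h := cexp ℂ m (fun v => (g v : ℂ)) (by
    rw [← Complex.ofReal_sum, hsum, Complex.ofReal_zero])
  have hn : ∀ r : ℝ, ‖(r : ℂ)‖ ^ 2 = r ^ 2 := by
    intro r; rw [Complex.norm_real, Real.norm_eq_abs, sq_abs]
  have hn2 : ∀ r s : ℝ, ‖(r : ℂ) - (s : ℂ)‖ ^ 2 = (r - s) ^ 2 := by
    intro r s; rw [← Complex.ofReal_sub, hn]
  simp only [hn, hn2] at h
  have hL : ((Fu S).card : ℝ) / 4 ≤ ∑ v, g v ^ 2 := by
    have h1 : ∑ v ∈ Fu S, g v ^ 2 ≤ ∑ v, g v ^ 2 :=
      Finset.sum_le_sum_of_subset_of_nonneg (subset_univ _) fun _ _ _ => sq_nonneg _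
    have h2 : ∑ v ∈ Fu S, (1 / 4 : ℝ) ≤ ∑ v ∈ Fu S, g v ^ 2 := by
      refine Finset.sum_le_sum fun v hv => ?_
      simp only [hg, if_pos hv]
      nlinarith
    rw [Finset.sum_const, nsmul_eq_mul] at h2
    linarith
  have hR : ∑ z : W m × Fin 4, (g (sg m z.2 z.1) - g z.1) ^ 2 = (Df S).card := by
    rw [Df, Finset.card_filter]
    push_cast
    refine Finset.sum_congr rfl fun z _ => ?_
    simp only [hg]
    by_cases h1 : z.1 ∈ Fu S <;> by_cases h2 : sg m z.2 z.1 ∈ Fu S
    · rw [if_pos h1, if_pos h2, if_neg (fun h => h ⟨fun _ => h2, fun _ => h1⟩)]; ring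
    · rw [if_pos h1, if_neg h2, if_pos (fun h => h2 (h.1 h1))]; ring
    · rw [if_neg h1, if_pos h2, if_pos (fun h => h1 (h.2 h2))]; ring
    · rw [if_neg h1, if_neg h2, if_neg (fun h => h ⟨fun h' => absurd h' h1, fun h' => absurd h' h2⟩)]
      ring
  have hR2 : ∑ z : W m × Fin 4, (g (sg m z.2 z.1) - g z.1) ^ 2 =
      ∑ v, (g (v.1 + 1, v.2) - g v) ^ 2 + ∑ v, (g (v.1, v.2 + 1) - g v) ^ 2 +
      ∑ v, (g (v.1, v.2 + v.1) - g v) ^ 2 + ∑ v, (g (v.1 + v.2, v.2) - g v) ^ 2 := by
    rw [Fintype.sum_prod_type_right, Fin.sum_univ_four]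
    rfl
  rw [← hR2, hR] at h
  linarith

theorem expand (hS : 2 * S.card ≤ Fintype.card (Vx m)) :
    (1 / 230416 : ℝ) * S.card ≤ (edgeBoundary (Gr m) S).ncard := by
  classical
  have hcard : Fintype.card (Vx m) = 16 * m ^ 2 := by
    simp only [Fintype.card_prod, ZMod.card, Fintype.card_fin, Fintype.card_bool]
    ring
  have h1 : ((Fu S ×ˢ (univ : Finset (Fin 4 × Bool))) ×ˢ (univ : Finset Bool)) ⊆ S := by
    rintro ⟨⟨v, p⟩, b⟩ h
    simp only [mem_product, mem_univ, and_true] at h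
    exact (mem_Fu S).1 h p b
  have h2 : S ⊆ (((Fu S ∪ Pa S) ×ˢ (univ : Finset (Fin 4 × Bool))) ×ˢ (univ : Finset Bool)) := by
    rintro ⟨⟨v, p⟩, b⟩ h
    simp only [mem_product, mem_univ, and_true, mem_union]
    by_contra hcon
    push Not at hcon
    exact empty_cloud S hcon.1 hcon.2 p b h
  have h3 := card_le_card h1
  have h4 := card_le_card h2
  have h5 := card_union_le (Fu S) (Pa S)
  simp only [card_product, card_univ, Fintype.card_prod, Fintype.card_fin,
    Fintype.card_bool] at h3 h4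
  have h6 : 2 * (Fu S).card ≤ m ^ 2 := by
    rw [hcard] at hS
    omega
  have h7 := Fu_le S h6
  have h8 := Df_le S
  have h9 := Pa_le S
  have h8' : ((Df S).card : ℝ) ≤ (edgeBoundary (Gr m) S).ncard + 8 * (Pa S).card := by
    exact_mod_cast h8
  have h9' : ((Pa S).card : ℝ) ≤ (edgeBoundary (Gr m) S).ncard := by exact_mod_cast h9
  have h10 : (S.card : ℝ) ≤ 16 * ((Fu S).card + (Pa S).card) := by
    have : S.card ≤ 16 * ((Fu S).card + (Pa S).card) := by omega
    exact_mod_cast this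
  linarith

end expansion

theorem isExpander (m : ℕ) [NeZero m] : IsExpander 15 (1 / 230416) (Gr m) := by
  have h : ∀ S : Finset (Vx m), S.Nonempty → 2 * S.card ≤ Fintype.card (Vx m) →
      (1 / 230416 : ℝ) * S.card ≤ (edgeBoundary (Gr m) S).ncard := fun S _ hS => expand S hS
  exact ⟨connected_of_expand _ _ (by norm_num) h, degree m, h⟩

/-- There is a constant degree `15` expander sequence none of whose members is movable. -/
theorem result : ∃ (d : ℕ) (V : ℕ → Type) (_ : ∀ n, Fintype (V n)) (G : ∀ n, SimpleGraph (V n)),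
    3 ≤ d ∧ IsExpanderSequence d V G ∧ ∀ n, ¬ Movable (G n) := by
  refine ⟨15, fun n => Vx (n + 1), fun n => inferInstance, fun n => Gr (n + 1), by norm_num,
    ⟨?_, 1 / 230416, by norm_num, fun n => isExpander (n + 1)⟩, fun n => ?_⟩
  · refine Filter.tendsto_atTop_mono (f := fun n => n) (fun n => ?_) Filter.tendsto_id
    simp only [Fintype.card_prod, ZMod.card, Fintype.card_fin, Fintype.card_bool]
    nlinarith
  · exact not_movable (Hg (n + 1)) (isExpander (n + 1)).1

end Pool.Agent.Results.MP_e534f3_co.NotMovable
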